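import Pool.Agent.J6H9.EV.Stm
import Pool.Agent.J6H46.EU.Den

set_option autoImplicit false

/-! # EV-SUB2: `U d` is contained in `EU f` -/

namespace Pool.Agent.J6H56.EV

open Filter Topology Pool.Agent.J6H9.EU Pool.Agent.J6H9.EV
open Pool.Agent.J6H46.EU (st_succ st_mono le_st idx idx_le lt_idx le_idx a_nonneg)

variable {f : ℕ → ℝ} {d : ℕ → ℕ}

open Classical in
/-- weighted counting function -/
noncomputable def SB (f : ℕ → ℝ) (A : Set ℕ) (N : ℕ) : ℝ := ∑ i ∈ (Finset.range N).filter (· ∈ A), f i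

theorem SB_nonneg (hf : ∀ n, 0 < f n) (A : Set ℕ) (N : ℕ) : 0 ≤ SB f A N := by
  classical
  unfold SB
  exact Finset.sum_nonneg fun i _ => (hf i).le

theorem SB_mono (hf : ∀ n, 0 < f n) (A : Set ℕ) : Monotone (SB f A) := by
  classical
  intro M N h
  unfold SB
  apply Finset.sum_le_sum_of_subset_of_nonneg
  · intro x hx
    rw [Finset.mem_filter, Finset.mem_range] at hx ⊢
    exact ⟨by omega, hx.2⟩
  · intro i _ _
    exact (hf i).le

theorem F_mono (hf : ∀ n, 0 < f n) : Monotone (F f) := by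
  intro M N h
  unfold F
  apply Finset.sum_le_sum_of_subset_of_nonneg
  · intro x hx
    rw [Finset.mem_range] at hx ⊢
    omega
  · intro i _ _
    exact (hf i).le

theorem SB_block (hf : ∀ n, 0 < f n) (hd : ∀ n, 0 < d n)
    (hup : ∀ n, ∀ x ∈ D d n, f x ≤ 2 * f (st d n)) (A : Set ℕ) (n : ℕ) :
    SB f A (st d (n + 1)) ≤
      SB f A (st d n) + 2 * (Pool.Agent.J6H46.EU.a d A n * (d n * f (st d n))) := by
  classical
  have h0 : (0 : ℝ) < d n := by exact_mod_cast hd n
  have h1 : ∑ i ∈ Finset.Ico (st d n) (st d n + d n), (if i ∈ A then f i else 0) ≤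
      ((A ∩ D d n).ncard : ℝ) * (2 * f (st d n)) := by
    rw [← Finset.sum_filter]
    have h2 : ∀ i ∈ (Finset.Ico (st d n) (st d n + d n)).filter (· ∈ A), f i ≤ 2 * f (st d n) := by
      intro i hi
      rw [Finset.mem_filter, Finset.mem_Ico] at hi
      exact hup n i hi.1
    have h3 : ((Finset.Ico (st d n) (st d n + d n)).filter (· ∈ A)).card = (A ∩ D d n).ncard := by
      rw [← Set.ncard_coe_finset]
      congr 1
      ext x
      simp only [Finset.coe_filter, Finset.mem_Ico, Set.mem_ofPred_eq, Set.mem_inter_iff, D, Set.mem_Ico]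
      tauto
    refine (Finset.sum_le_sum h2).trans (le_of_eq ?_)
    rw [Finset.sum_const, nsmul_eq_mul, h3]
  have h4 : SB f A (st d (n + 1)) = SB f A (st d n) +
      ∑ i ∈ Finset.Ico (st d n) (st d n + d n), (if i ∈ A then f i else 0) := by
    unfold SB
    rw [Finset.sum_filter, Finset.sum_filter, st_succ, Finset.range_eq_Ico, Finset.range_eq_Ico,
      Finset.sum_Ico_consecutive _ (Nat.zero_le _) (Nat.le_add_right _ _)]
  have h5 : 2 * (Pool.Agent.J6H46.EU.a d A n * (d n * f (st d n))) =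
      ((A ∩ D d n).ncard : ℝ) * (2 * f (st d n)) := by
    unfold Pool.Agent.J6H46.EU.a
    field_simp
  rw [h4, h5]
  linarith

theorem F_block (hlo : ∀ n, ∀ x ∈ D d n, f (st d n) ≤ f x) (n : ℕ) :
    F f (st d n) + d n * f (st d n) ≤ F f (st d (n + 1)) := by
  have h1 : (d n : ℝ) * f (st d n) ≤ ∑ i ∈ Finset.Ico (st d n) (st d n + d n), f i := by
    have h2 : ∑ _i ∈ Finset.Ico (st d n) (st d n + d n), f (st d n) ≤
        ∑ i ∈ Finset.Ico (st d n) (st d n + d n), f i :=
      Finset.sum_le_sum fun i hi => hlo n i (Finset.mem_Ico.1 hi)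
    rw [Finset.sum_const, nsmul_eq_mul, Nat.card_Ico, Nat.add_sub_cancel_left] at h2
    exact h2
  have h3 : F f (st d (n + 1)) = F f (st d n) + ∑ i ∈ Finset.Ico (st d n) (st d n + d n), f i := by
    unfold F
    rw [st_succ, Finset.range_eq_Ico, Finset.range_eq_Ico,
      Finset.sum_Ico_consecutive _ (Nat.zero_le _) (Nat.le_add_right _ _)]
  linarith

theorem main : S_SUB2 := by
  classical
  intro f d hf hd hF hlo hup hsm A hA
  have hA' : Tendsto (Pool.Agent.J6H46.EU.a d A) atTop (𝓝 0) := hA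
  show Tendsto (fun n => SB f A n / F f n) atTop (𝓝 0)
  rw [Metric.tendsto_atTop] at hA' ⊢
  intro ε hε
  obtain ⟨K, hK⟩ := hA' (ε / 12) (by positivity)
  have hK' : ∀ k, K ≤ k → Pool.Agent.J6H46.EU.a d A k ≤ ε / 12 := by
    intro k hk
    have := hK k hk
    rw [Real.dist_eq, sub_zero] at this
    exact (le_abs_self _).trans this.le
  have hF0 : ∀ n, 0 ≤ F f n := fun n => by
    unfold F
    exact Finset.sum_nonneg fun i _ => (hf i).le
  have hstep : ∀ k, K ≤ k → 2 * (Pool.Agent.J6H46.EU.a d A k * (d k * f (st d k))) ≤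
      ε / 6 * (d k * f (st d k)) := by
    intro k hk
    have h1 : 0 ≤ (d k : ℝ) * f (st d k) := mul_nonneg (Nat.cast_nonneg _) (hf _).le
    have h2 := mul_le_mul_of_nonneg_right (hK' k hk) h1
    linarith
  have hind : ∀ m, SB f A (st d (K + m)) ≤ SB f A (st d K) + ε / 6 * F f (st d (K + m)) := by
    intro m
    induction m with
    | zero =>
      have h1 := mul_nonneg (by positivity : (0 : ℝ) ≤ ε / 6) (hF0 (st d (K + 0)))
      simp only [add_zero] at h1 ⊢
      linarith
    | succ m ih =>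
      have h1 := SB_block hf hd hup A (K + m)
      have h2 := hstep (K + m) (by omega)
      have h3 := F_block (f := f) hlo (K + m)
      have h4 := mul_le_mul_of_nonneg_left h3 (by positivity : (0 : ℝ) ≤ ε / 6)
      rw [← add_assoc]
      linarith
  obtain ⟨N0, hN0⟩ := eventually_atTop.1 (hF.eventually_ge_atTop
    (max 1 (4 * SB f A (st d K) / ε)))
  refine ⟨max N0 (st d K), fun N hN => ?_⟩
  have h1 := hN0 N ((le_max_left _ _).trans hN)
  have h2 : (1 : ℝ) ≤ F f N := (le_max_left _ _).trans h1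
  have h3 : 4 * SB f A (st d K) / ε ≤ F f N := (le_max_right _ _).trans h1
  rw [div_le_iff₀ hε] at h3
  have h4 : K ≤ idx d N := le_idx hd ((le_max_right _ _).trans hN)
  obtain ⟨m, hm⟩ := Nat.exists_eq_add_of_le h4
  have h5 := hind m
  rw [← hm] at h5
  have h6 : st d (idx d N) ≤ N := idx_le N
  have h7 : N < st d (idx d N + 1) := lt_idx hd N
  have h8 : F f (st d (idx d N)) ≤ F f N := F_mono hf h6
  have h8' := mul_le_mul_of_nonneg_left h8 (by positivity : (0 : ℝ) ≤ ε / 6)
  have hεF : 0 ≤ ε * F f N := mul_nonneg hε.le (hF0 N)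
  have h9 : SB f A N ≤ SB f A (st d K) + ε / 2 * F f N := by
    rcases eq_or_lt_of_le h6 with h10 | h10
    · rw [h10] at h5
      linarith
    · have h11 : SB f A N ≤ SB f A (st d (idx d N + 1)) := SB_mono hf A h7.le
      have h12 := SB_block hf hd hup A (idx d N)
      have h13 := hstep (idx d N) h4
      have h14 := hsm (idx d N)
      have h15 : F f (st d (idx d N) + 1) ≤ F f N := F_mono hf h10
      have h16 : ε / 6 * (d (idx d N) * f (st d (idx d N))) ≤ ε / 6 * (2 * F f N) :=
        mul_le_mul_of_nonneg_left (by linarith) (by positivity)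
      linarith
  have h10 : (0 : ℝ) < F f N := by linarith
  rw [Real.dist_eq, sub_zero, abs_of_nonneg (div_nonneg (SB_nonneg hf A N) h10.le), div_lt_iff₀ h10]
  have h11 : 0 < ε * F f N := mul_pos hε h10
  linarith

end Pool.Agent.J6H56.EV
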